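import Mathlib

set_option autoImplicit false

namespace Pool.Agent.Results.MP_6ee6b4_an.NotDense

open Topology

/-- `mul` is an associative bilinear jointly continuous product on the `F`-space `X` (a completely
metrizable topological vector space). -/
structure IsFAlgebra (𝕜 : Type) [RCLike 𝕜] {X : Type} [AddCommGroup X] [Module 𝕜 X]
    [TopologicalSpace X] (mul : X → X → X) : Prop where
  add_cont : Continuous fun p : X × X => p.1 + p.2
  smul_cont : Continuous fun p : 𝕜 × X => p.1 • p.2
  complete : TopologicalSpace.IsCompletelyMetrizableSpace X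
  add_mul : ∀ x y z, mul (x + y) z = mul x z + mul y z
  mul_add : ∀ x y z, mul x (y + z) = mul x y + mul x z
  smul_mul : ∀ (c : 𝕜) x y, mul (c • x) y = c • mul x y
  mul_smul : ∀ (c : 𝕜) x y, mul x (c • y) = c • mul x y
  assoc : ∀ x y z, mul (mul x y) z = mul x (mul y z)
  mul_cont : Continuous fun p : X × X => mul p.1 p.2

/-- `pow mul x n` is the power `x ^ (n + 1)` for the product `mul`. -/
def pow {X : Type} (mul : X → X → X) (x : X) : ℕ → X
  | 0 => x
  | (n + 1) => mul (pow mul x n) x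

/-- The set of generators of hypercyclic algebras for `T`: the nonzero `x` such that every nonzero
element of the subalgebra generated by `x` has a dense orbit. -/
def gen (𝕜 : Type) [RCLike 𝕜] {X : Type} [AddCommGroup X] [Module 𝕜 X]
    [TopologicalSpace X] (mul : X → X → X) (T : X →L[𝕜] X) : Set X :=
  {x | x ≠ 0 ∧ ∀ y ∈ Submodule.span 𝕜 (Set.range (pow mul x)), y ≠ 0 →
    Dense (Set.range fun n : ℕ => (T^[n]) y)}

section

variable (𝕜 : Type) [RCLike 𝕜]

/-- backward shift. -/
def shift : (ℕ → 𝕜) →L[𝕜] (ℕ → 𝕜) where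
  toFun x n := x (n + 1)
  map_add' _ _ := rfl
  map_smul' _ _ := rfl
  cont := by fun_prop

variable {𝕜}

/-- the product. -/
def mul (x y : ℕ → 𝕜) : ℕ → 𝕜 := fun n => if n = 0 then x 0 * y 0 else 0

theorem shift_iter (x : ℕ → 𝕜) (n m : ℕ) : ((shift 𝕜)^[n]) x m = x (n + m) := by
  induction n generalizing m with
  | zero => simp
  | succ n ih =>
    rw [Function.iterate_succ_apply']
    change ((shift 𝕜)^[n]) x (m + 1) = _
    rw [ih]
    congr 1
    ring

variable (𝕜) in
/-- a hypercyclic vector for the backward shift. -/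
noncomputable def hyp : ℕ → 𝕜 := fun n =>
  TopologicalSpace.denseSeq 𝕜
    (((Encodable.decode (α := List ℕ) (Nat.unpair (Nat.log 2 n)).1).getD []).getD
      (n - 2 ^ (Nat.log 2 n)) 0)

theorem hyp_dense : Dense (Set.range fun n : ℕ => ((shift 𝕜)^[n]) (hyp 𝕜)) := by
  rw [dense_iff_inter_open]
  rintro U hU ⟨x, hx⟩
  rw [isOpen_pi_iff] at hU
  obtain ⟨I, u, hu, hsub⟩ := hU x hx
  have ht : ∀ i, ∃ a : ℕ, i ∈ I → TopologicalSpace.denseSeq 𝕜 a ∈ u i := by
    intro i
    by_cases hi : i ∈ I
    · obtain ⟨a, ha⟩ := (TopologicalSpace.denseRange_denseSeq 𝕜).exists_mem_open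
        (hu i hi).1 ⟨x i, (hu i hi).2⟩
      exact ⟨a, fun _ => ha⟩
    · exact ⟨0, fun h => absurd h hi⟩
  choose t ht using ht
  obtain ⟨m, hm⟩ : ∃ m, ∀ i ∈ I, i < m := ⟨I.sup id + 1, fun i hi =>
    Nat.lt_succ_of_le (Finset.le_sup (f := id) hi)⟩
  let L : List ℕ := (List.range m).map t
  let k := Nat.pair (Encodable.encode L) m
  refine ⟨_, hsub ?_, 2 ^ k, rfl⟩
  intro i hi
  have him := hm i hi
  change ((shift 𝕜)^[2 ^ k]) (hyp 𝕜) i ∈ u i
  rw [shift_iter]
  have hmk : m ≤ k := Nat.right_le_pair _ _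
  have hk2 : k < 2 ^ k := Nat.lt_two_pow_self
  have hlog : Nat.log 2 (2 ^ k + i) = k := by
    rw [Nat.log_eq_iff (Or.inr ⟨by norm_num, by positivity⟩)]
    constructor
    · omega
    · rw [pow_succ]; omega
  have hval : hyp 𝕜 (2 ^ k + i) = TopologicalSpace.denseSeq 𝕜 (t i) := by
    simp only [hyp, hlog]
    have h1 : (Nat.unpair k).1 = Encodable.encode L := by simp [k]
    rw [h1, Encodable.encodek, Option.getD_some]
    congr 1
    have h2 : 2 ^ k + i - 2 ^ k = i := by omega
    rw [h2]
    simp [L, him]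
  rw [hval]
  exact ht i hi

end

/-- Over `𝕜 = ℝ` or `ℂ` there are an `F`-algebra `X` and a continuous linear map `T` on it such
that the set of generators of hypercyclic algebras for `T` is nonempty, but neither dense nor
residual. -/
theorem result (𝕜 : Type) [RCLike 𝕜] :
    ∃ (X : Type) (_ : AddCommGroup X) (_ : Module 𝕜 X) (_ : TopologicalSpace X)
      (mul : X → X → X) (T : X →L[𝕜] X),
      IsFAlgebra 𝕜 mul ∧ (gen 𝕜 mul T).Nonempty ∧ ¬ Dense (gen 𝕜 mul T) ∧
        gen 𝕜 mul T ∉ residual X := by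
  refine ⟨ℕ → 𝕜, inferInstance, inferInstance, inferInstance, mul, shift 𝕜, ?_, ?_, ?_⟩
  · refine ⟨by fun_prop, by fun_prop, ?_, ?_, ?_, ?_, ?_, ?_, ?_⟩
    · infer_instance
    · intro x y z; funext n; by_cases h : n = 0 <;> simp [mul, h, add_mul]
    · intro x y z; funext n; by_cases h : n = 0 <;> simp [mul, h, mul_add]
    · intro c x y; funext n; by_cases h : n = 0 <;> simp [mul, h, mul_assoc]
    · intro c x y; funext n; by_cases h : n = 0 <;> simp [mul, h, mul_left_comm]
    · intro x y z; funext n; by_cases h : n = 0 <;> simp [mul, h, mul_assoc]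
    · apply continuous_pi
      intro n
      by_cases h : n = 0
      · simp only [mul, h, if_true]; fun_prop
      · simp only [mul, h, if_false]; fun_prop
  · -- nonempty
    let x : ℕ → 𝕜 := fun n => if n = 0 then 0 else hyp 𝕜 (n - 1)
    have hx0 : x 0 = 0 := by simp [x]
    have hTx : shift 𝕜 x = hyp 𝕜 := by
      funext n
      change x (n + 1) = _
      simp [x]
    have hdx : ∀ a : 𝕜, a ≠ 0 → Dense (Set.range fun n : ℕ => ((shift 𝕜)^[n]) (a • x)) := by
      intro a ha
      have h1 : Dense ((fun y : ℕ → 𝕜 => a • y) ''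
          (Set.range fun n : ℕ => ((shift 𝕜)^[n]) (hyp 𝕜))) := by
        have hs : Function.Surjective (fun y : ℕ → 𝕜 => a • y) := fun y =>
          ⟨a⁻¹ • y, by simp [smul_smul, mul_inv_cancel₀ ha]⟩
        exact hs.denseRange.dense_image (by fun_prop) hyp_dense
      apply h1.mono
      rintro _ ⟨_, ⟨n, rfl⟩, rfl⟩
      refine ⟨n + 1, ?_⟩
      funext m
      simp only [shift_iter, Pi.smul_apply, x]
      have h2 : n + 1 + m ≠ 0 := by omega
      have h3 : n + 1 + m - 1 = n + m := by omega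
      rw [if_neg h2, h3]
    have hxne : x ≠ 0 := by
      intro h
      have h1 := hdx 1 one_ne_zero
      rw [h] at h1
      have h2 : (Set.range fun n : ℕ => ((shift 𝕜)^[n]) ((1 : 𝕜) • (0 : ℕ → 𝕜))) ⊆ {0} := by
        rintro _ ⟨n, rfl⟩
        rw [Set.mem_singleton_iff]
        funext m
        simp [shift_iter]
      have h3 := (h1.mono h2).closure_eq
      rw [closure_singleton] at h3
      have h4 : (fun _ => 1 : ℕ → 𝕜) ∈ ({0} : Set (ℕ → 𝕜)) := by rw [h3]; trivial
      have h5 := congrFun (Set.mem_singleton_iff.mp h4) 0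
      simp at h5
    refine ⟨x, hxne, ?_⟩
    intro y hy hy0
    have hpow : ∀ n, pow mul x (n + 1) = 0 := by
      intro n
      funext m
      by_cases h : m = 0 <;> simp [pow, mul, h, hx0]
    have hspan : Submodule.span 𝕜 (Set.range (pow mul x)) ≤ Submodule.span 𝕜 {x} := by
      rw [Submodule.span_le]
      rintro _ ⟨n, rfl⟩
      cases n with
      | zero => exact Submodule.subset_span rfl
      | succ n => rw [hpow n]; exact Submodule.zero_mem _
    obtain ⟨a, rfl⟩ := Submodule.mem_span_singleton.mp (hspan hy)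
    apply hdx
    rintro rfl
    exact hy0 (zero_smul _ _)
  · have hsub : gen 𝕜 mul (shift 𝕜) ⊆ {x : ℕ → 𝕜 | x 0 = 0} := by
      rintro x ⟨_, hx⟩
      by_contra hx0
      simp only [Set.mem_ofPred_eq] at hx0
      have h1 : pow mul x 1 ∈ Submodule.span 𝕜 (Set.range (pow mul x)) :=
        Submodule.subset_span ⟨1, rfl⟩
      have h2 : pow mul x 1 ≠ 0 := by
        intro h
        have := congrFun h 0
        simp [pow, mul] at this
        exact hx0 this
      have h3 := hx _ h1 h2
      have h4 : (Set.range fun n : ℕ => ((shift 𝕜)^[n]) (pow mul x 1))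
          ⊆ {y : ℕ → 𝕜 | y 1 = 0} := by
        rintro _ ⟨n, rfl⟩
        simp [shift_iter, pow, mul]
      have h5 : IsClosed {y : ℕ → 𝕜 | y 1 = 0} := isClosed_eq (by fun_prop) continuous_const
      have h6 := (h3.mono h4).closure_eq
      rw [h5.closure_eq] at h6
      have h7 : (fun _ => 1 : ℕ → 𝕜) ∈ {y : ℕ → 𝕜 | y 1 = 0} := by rw [h6]; trivial
      simp at h7
    have hnd : ¬ Dense (gen 𝕜 mul (shift 𝕜)) := by
      intro hd
      have h5 : IsClosed {y : ℕ → 𝕜 | y 0 = 0} := isClosed_eq (by fun_prop) continuous_const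
      have h6 := (hd.mono hsub).closure_eq
      rw [h5.closure_eq] at h6
      have h7 : (fun _ => 1 : ℕ → 𝕜) ∈ {y : ℕ → 𝕜 | y 0 = 0} := by rw [h6]; trivial
      simp at h7
    exact ⟨hnd, fun h => hnd (dense_of_mem_residual h)⟩

end Pool.Agent.Results.MP_6ee6b4_an.NotDense
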